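import Pool.Agent.U762.HU.Mn
import Pool.Agent.R516.TwoI
import Pool.Agent.R516.Core

/-! The second Hardy-Littlewood conjecture at almost all `x`, for all lengths `y ≤ x` of the
interval, with a large margin. -/

set_option autoImplicit false

open Filter Topology MeasureTheory Finset

namespace Pool.Agent.Results.MP_5046ca_nt.AlmostAllStarts

open Classical in
/-- `Thin A P`: at most `O(X / (log X) ^ A)` of the integers `x ≤ X` have the property `P`, and for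
every sequence `s n ≥ 1` with `∑ 1 / (s n) ^ A < ∞` and almost every real `α > 1` only finitely
many of the integers `⌊α ^ (s n)⌋` have it. -/
def Thin (A : ℕ) (P : ℕ → Prop) : Prop :=
  (∃ K : ℝ, ∀ X : ℕ, 2 ≤ X → (((Icc 1 X).filter P).card : ℝ) ≤ K * X / (Real.log X) ^ A) ∧
  ∀ s : ℕ → ℝ, (∀ n, 1 ≤ s n) → (Summable fun n => 1 / (s n) ^ A) →
    ∀ᵐ α ∂(volume.restrict (Set.Ioi (1 : ℝ))), ∀ᶠ n : ℕ in atTop, ¬ P ⌊α ^ s n⌋₊

open Classical in
lemma thin_of {A : ℕ} {P Q : ℕ → Prop} {K : ℝ} (hK : 0 ≤ K) (hPQ : ∀ x, 1 ≤ x → P x → Q x)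
    (h : ∀ X : ℕ, 2 ≤ X → (((Icc 1 X).filter Q).card : ℝ) ≤ K * X / (Real.log X) ^ A) :
    Thin A P := by
  have h' : ∀ X : ℕ, 2 ≤ X → (((Icc 1 X).filter P).card : ℝ) ≤ K * X / (Real.log X) ^ A := by
    intro X hX
    refine le_trans ?_ (h X hX)
    have : ((Icc 1 X).filter P).card ≤ ((Icc 1 X).filter Q).card := by
      apply card_le_card
      intro x hx
      rw [mem_filter, mem_Icc] at hx ⊢
      exact ⟨hx.1, hPQ x hx.1.1 hx.2⟩
    exact_mod_cast this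
  refine ⟨⟨K, h'⟩, fun s hs hsum => Pool.Agent.U762.SH.metric hK ?_ hs hsum⟩
  filter_upwards [eventually_ge_atTop 2] with X hX
  exact h' X hX

/-- `x` is the start of an interval `(x, x + y]`, `y0 ≤ y ≤ x ^ θ`, with more than `ε π(y)`
primes -/
def Rich (ε θ : ℝ) (y0 x : ℕ) : Prop := ∃ y : ℕ, y0 ≤ y ∧ (y : ℝ) ≤ (x : ℝ) ^ θ ∧
  ε * (Nat.primeCounting y : ℝ) < (Nat.primeCounting (x + y) : ℝ) - Nat.primeCounting x

/-- `x` is the start of an interval `(x, x + y]`, `y0 ≤ y ≤ x`, with more than `π(y) - M` primes -/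
def Close (M y0 x : ℕ) : Prop := ∃ y : ℕ, y0 ≤ y ∧ y ≤ x ∧
  Nat.primeCounting x + Nat.primeCounting y < Nat.primeCounting (x + y) + M

open Pool.Agent.U762.SH in
lemma rich_ex {ε δ y0 : ℝ} {m x : ℕ} (hm2 : 2 ≤ m) (hm : y0 ≤ m) (hx : 1 ≤ x)
    (h : Rich ε (5 * ε / 18 - δ) m x) : Ex ε δ y0 x := by
  obtain ⟨y, h1, h2, h3⟩ := h
  have hxr : (1 : ℝ) ≤ x := by exact_mod_cast hx
  have hyr : (2 : ℝ) ≤ y := by exact_mod_cast hm2.trans h1
  have hθ : 0 ≤ 5 * ε / 18 - δ := by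
    by_contra hc
    rw [not_le] at hc
    have := Real.rpow_le_one_of_one_le_of_nonpos hxr hc.le
    linarith
  refine ⟨y, hm.trans (by exact_mod_cast h1), h2.trans ?_, ?_⟩
  · exact Real.rpow_le_rpow (by linarith) (by linarith) hθ
  · have e : ⌊((x : ℕ) : ℝ) + (y : ℕ)⌋₊ = x + y := by
      have : ((x : ℕ) : ℝ) + (y : ℕ) = ((x + y : ℕ) : ℝ) := by push_cast; ring
      rw [this, Nat.floor_natCast]
    rw [e, Nat.floor_natCast]
    have h4 := Pool.Agent.U762.GP.pcn_sub (a := x) (b := x + y) (by omega)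
    rw [← h4] at h3
    refine lt_of_lt_of_le h3 ?_
    exact_mod_cast pcn_mono (by omega)

/-- **The second Hardy-Littlewood conjecture for almost all `x`.**
(1) For all `M`, `A` there is `y0` such that `Thin A` the integers `x` for which some `y` with
`y0 ≤ y ≤ x` has `π(x + y) - π(x) > π(y) - M`.
(2) `Thin 20` the integers `x` for which some `y` with `2 ≤ y ≤ x` has `π(x + y) > π(x) + π(y)`.
(3) For `0 < ε ≤ 1`, `δ > 0` and every `A` there is `y0` such that `Thin A` the integers `x` for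
which some `y` with `y0 ≤ y ≤ x ^ (5 ε / 18 - δ)` has `π(x + y) - π(x) > ε π(y)`. -/
theorem result :
    (∀ M A : ℕ, ∃ y0 : ℕ, Thin A (Close M y0)) ∧
    Thin 20 (Close 0 2) ∧
    (∀ ε δ : ℝ, 0 < ε → ε ≤ 1 → 0 < δ → ∀ A : ℕ, ∃ y0 : ℕ,
      Thin A (Rich ε (5 * ε / 18 - δ) y0)) := by
  classical
  have hU : Pool.Agent.R516.St_U := Pool.Agent.R516.winU Pool.Agent.R516.core
  refine ⟨fun M A => ?_, ?_, fun ε δ hε hε1 hδ A => ?_⟩
  · obtain ⟨y0, hy0, h⟩ := Pool.Agent.U762.HU.full hU M A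
    obtain ⟨K, hK0, hK⟩ := Pool.Agent.U762.SH.all_X h
    exact ⟨y0, thin_of hK0.le (Q := fun x => Pool.Agent.U762.HU.Cl M y0 x)
      (fun x _ hx => hx) (fun X hX => hK X hX)⟩
  · obtain ⟨K, hK0, hK⟩ := Pool.Agent.U762.HU.full2 hU
    exact thin_of hK0.le (Q := fun x => Pool.Agent.U762.HU.Cl 0 2 x)
      (fun x _ hx => hx) (fun X hX => hK X hX)
  · obtain ⟨y0, hy0, h⟩ := Pool.Agent.U762.SH.main1 hU ε δ hε hε1 hδ A
    obtain ⟨K, hK0, hK⟩ := Pool.Agent.U762.SH.all_X h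
    have h1 : y0 ≤ (⌈y0⌉₊ : ℝ) := Nat.le_ceil y0
    have h2 : 2 ≤ ⌈y0⌉₊ := by
      have : (2 : ℝ) ≤ (⌈y0⌉₊ : ℝ) := by linarith
      exact_mod_cast this
    exact ⟨⌈y0⌉₊, thin_of hK0.le (Q := fun x => Pool.Agent.U762.SH.Ex ε δ y0 x)
      (fun x hx hPx => rich_ex h2 h1 hx hPx) (fun X hX => hK X hX)⟩

end Pool.Agent.Results.MP_5046ca_nt.AlmostAllStarts
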