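import Pool.Agent.Results.MP_5046ca_nt.AlmostAllStarts
import Pool.Agent.U513.AP.Log

/-!
# The second Hardy-Littlewood conjecture near the numerators and denominators of Diophantine approximations

Let `α ∈ ℝ ^ d` and consider all its approximations `(k, u_1, …, u_d)` with `|k α_i - γ_i - u_i| ≤ k ^ (-τ)`; for `d = 1`, `γ = 0`,
`τ = 1` these contain the denominators and numerators of all the convergents of the continued fraction of `α`, for `τ = 1 / d` all
the best simultaneous approximations, and for larger `τ` the very good approximations of the very well approximable `α`, which form a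
set of dimension `s = (d + 1) / (1 + τ) < d` and of infinite Hausdorff measure in this dimension (Jarník). We show that for all `M`, `W`
there is `y_0` such that for all `α` outside of a set of Hausdorff measure ZERO in the dimension `s`, ALL the natural numbers `x` at a
distance of at most `(log k) ^ W` from `c + a k + b_1 u_1 + ⋯ + b_d u_d`, for every integral affine form with `(a, b) ≠ 0` and all these
approximations with large `k`, satisfy `π(x + y) - π(x) ≤ π(y) - M` for ALL `y` with `y_0 ≤ y ≤ x`; and that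
`π(x + y) ≤ π(x) + π(y)` for ALL `2 ≤ y ≤ x`, if `W = 18`.

Proof. The theorem `AlmostAllStarts` of this page (helper762) bounds the number of the exceptional `x ≤ X` by `C X / (log X) ^ A`. The
integral vectors `(k, u)` with `k ≈ X` and a value of the form near an exceptional `x` are counted, and the sets of the `α`
approximated by them, cubes of side `2 X ^ (- 1 - τ)`, are used as the covers in the definition of the Hausdorff measure
(`U513/AP/Log`). The numbers `k`, `u` have the density zero for a given `α`, so that the bound for the number of exceptional `x`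
alone does not say anything about them.
-/

set_option autoImplicit false

open Finset Filter MeasureTheory

namespace Pool.Agent.Results.MP_5046ca_nt.Approximations

/-- `π(x + y) - π(x) ≤ π(y) - M` for all `y` with `y0 ≤ y ≤ x` -/
def Subadditive (M y0 x : ℕ) : Prop := ∀ y : ℕ, y0 ≤ y → y ≤ x →
  Nat.primeCounting (x + y) + M ≤ Nat.primeCounting x + Nat.primeCounting y

/-- `π(x + y) - π(x) ≤ ε π(y)` for all `y` with `y0 ≤ y ≤ x ^ θ` -/
def Sparse (ε θ : ℝ) (y0 x : ℕ) : Prop := ∀ y : ℕ, y0 ≤ y → (y : ℝ) ≤ (x : ℝ) ^ θ →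
  (Nat.primeCounting (x + y) : ℝ) - Nat.primeCounting x ≤ ε * (Nat.primeCounting y : ℝ)

/-- `(k, u)` is an approximation of `α` of exponent `τ` and shift `γ`: `|k α_i - γ_i - u_i| ≤ k ^ (-τ)` for all `i`. -/
def Approx {d : ℕ} (τ : ℝ) (γ α : Fin d → ℝ) (k : ℕ) (u : Fin d → ℤ) : Prop :=
  ∀ i, |(k : ℝ) * α i - γ i - u i| ≤ (k : ℝ) ^ (-τ)

/-- All the natural numbers `x ≥ 1` within `(log k) ^ W` of the values of all the integral affine forms `c + a k + ∑ b_i u_i`,
`(a, b) ≠ 0`, at all the approximations `(k, u)` of exponent `τ` and shift `γ` with large `k` have the property `G`, for all `α`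
outside of a set of Hausdorff measure zero in the dimension `(d + 1) / (1 + τ)` (of Lebesgue measure zero if `d τ ≥ 1`). -/
def NearApproximations (W : ℕ) (G : ℕ → Prop) : Prop :=
  ∀ (d : ℕ) (τ : ℝ) (γ : Fin d → ℝ), 0 ≤ τ →
    ∃ E : Set (Fin d → ℝ), μH[((d : ℝ) + 1) / (1 + τ)] E = 0 ∧ (1 ≤ d * τ → volume E = 0) ∧
      ∀ α, α ∉ E → ∀ (c a : ℤ) (b : Fin d → ℤ), ¬ (a = 0 ∧ b = 0) →
        ∀ᶠ k : ℕ in atTop, ∀ u : Fin d → ℤ, Approx τ γ α k u → ∀ x : ℕ, 1 ≤ x →
          |(x : ℝ) - (c + a * k + ∑ i, b i * u i : ℤ)| ≤ Real.log k ^ W → G x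

lemma near_of {W : ℕ} {P G : ℕ → Prop} (h : AlmostAllStarts.Thin (W + 2) P) (hG : ∀ x, ¬ P x → G x) :
    NearApproximations W G := by
  classical
  intro d τ γ hτ
  obtain ⟨K, hK⟩ := h.1
  have hF : Pool.Agent.U513.AP.FewLog {x | P x} (W + 2) := by
    refine ⟨K, fun X hX => le_trans (Nat.cast_le.2 ?_) (hK X hX)⟩
    rw [← Set.ncard_coe_finset]
    refine Set.ncard_le_ncard ?_ (Finset.finite_toSet _)
    rintro b ⟨hb, hb1, hb2⟩
    rw [mem_coe, mem_filter, mem_Icc]
    exact ⟨⟨hb1, hb2⟩, hb⟩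
  obtain ⟨E, e1, e2, e3⟩ := Pool.Agent.U513.AP.null_forms hF hτ γ
  refine ⟨E, e1, e2, fun α hα c a b hab => ?_⟩
  filter_upwards [e3 α hα c a b hab] with k hk u hu x hx hle
  exact hG x (fun hP => hk u hu x hP hx hle)

/-- **The second Hardy-Littlewood conjecture near the approximations of almost all points.** (1) For all `M`, `W` there is `y0` such that
for all `d`, `τ ≥ 0` and `γ` there is a set `E` of Hausdorff measure zero in the dimension `(d + 1) / (1 + τ)` such that for all `α ∉ E`
and all the integral affine forms with `(a, b) ≠ 0`, for all large `k` and all integral `u` with `|k α_i - γ_i - u_i| ≤ k ^ (-τ)`: ALL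
the natural numbers `x ≥ 1` with `|x - (c + a k + ∑ b_i u_i)| ≤ (log k) ^ W` satisfy `π(x + y) - π(x) ≤ π(y) - M` for ALL `y` with
`y0 ≤ y ≤ x`. (2) If `W = 18`, they satisfy `π(x + y) ≤ π(x) + π(y)` for ALL `y` with `2 ≤ y ≤ x`. (3) For `0 < ε ≤ 1`, `δ > 0` and every
`W` there is `y0` such that they satisfy `π(x + y) - π(x) ≤ ε π(y)` for ALL `y` with `y0 ≤ y ≤ x ^ (5 ε / 18 - δ)`. -/
theorem result :
    (∀ M W : ℕ, ∃ y0 : ℕ, NearApproximations W (Subadditive M y0)) ∧
    NearApproximations 18 (Subadditive 0 2) ∧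
    ∀ ε δ : ℝ, 0 < ε → ε ≤ 1 → 0 < δ → ∀ W : ℕ, ∃ y0 : ℕ, NearApproximations W (Sparse ε (5 * ε / 18 - δ) y0) := by
  have hs : ∀ M y0 x : ℕ, ¬ AlmostAllStarts.Close M y0 x → Subadditive M y0 x := by
    intro M y0 x h y h1 h2
    by_contra hc
    exact h ⟨y, h1, h2, not_le.1 hc⟩
  obtain ⟨h1, h2, h3⟩ := AlmostAllStarts.result
  refine ⟨fun M W => ?_, near_of h2 (hs 0 2), fun ε δ hε hε1 hδ W => ?_⟩
  · obtain ⟨y0, hy0⟩ := h1 M (W + 2)
    exact ⟨y0, near_of hy0 (hs M y0)⟩
  · obtain ⟨y0, hy0⟩ := h3 ε δ hε hε1 hδ (W + 2)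
    refine ⟨y0, near_of hy0 fun x hx y g1 g2 => ?_⟩
    by_contra hc
    exact hx ⟨y, g1, g2, not_le.1 hc⟩

end Pool.Agent.Results.MP_5046ca_nt.Approximations
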