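import Mathlib
import Pool.Agent.U746.HL.Fin
import Pool.Agent.U839.Hl.Fail

set_option autoImplicit false

/-!
# The second Hardy–Littlewood conjecture in random models of the primes

Let `ρ(y) = limsup_x (π(x + y) - π(x))`. The question is whether `π(y) - ρ(y) → ∞`. We answer it for the random
models of Cramér and Granville. Let `T` be nondecreasing, `T(n) ≤ (log n)^θ`, with `θ > 0` arbitrary. Only the
integers `n` without prime factors `p ≤ T(n)` can be chosen, independently, with probability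
`∏_{p ≤ T(n)} (1 - 1/p)⁻¹ / log n` (Cramér: `T = 0`; Granville: `T(n) = log n`). Let `N(x, y)` be the number of
chosen integers in `(x, x + y]`. Almost surely:

(1) For all large `X` and all `y` with `y₀ ≤ y ≤ c log X` there is an `x`, `X < x ≤ 2 X`, such that the window
`(x, x + y]` contains more chosen integers than the initial window `(0, y]`, and more than `π(y)`, by at least
`α y log log log y / (log y)²`. Here `c = c(θ) > 0` and `α < 1/2` is arbitrary.

(2) Hence `π(y) - ρ(y) → - ∞`, with the same rate, for the limsup `ρ` of the model: the answer to the question is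
`no`, in the strongest form, in each of these models.

(3) For every `ε > 0`, all large `x` and ALL `y` with `(1 + ε) log x ≤ y ≤ x`:
`N(x, y) ≤ min(π(y), N(0, y)) - (1 - η) y / (log y)²`. So the inequality of Hardy and Littlewood
`N(0, x + y) ≤ N(0, x) + N(0, y)` holds for all large `x`, `y` outside the range `min(x, y) ≪ log max(x, y)`, and
the order of this range is exact by (1).

Proof. (1) The largest number `max_m h_m(y)` of integers free of primes `p ≤ y` in windows of length `y` is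
attained by chosen integers in a window of `(X, 2 X]` (helper839's library for `MP_cbf366_nt`), and the starting
theorem `MP_67e6ae_nt.BeyondHensleyRichards` bounds it below. The own count `N(0, y)` is compared with `π(y)` by
the prime number theorem of the model (library of `MP_9cfc0a_nt.SquareRootErrorInRandomModels`) and partial
summation. (3) Chernoff's bound with two different parameters: for `y ≤ (log x)^B` the trivial mean value
`≪ y log log x / log x` suffices; for `(log x)^B ≤ y ≤ x^(1 - 2γ)` the fundamental lemma; for longer windows the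
prime number theorem of the model and the second term of `π(y)`.
-/

open MeasureTheory ProbabilityTheory Filter Topology

namespace Pool.Agent.Results.MP_5046ca_nt.RandomModels

open Classical in
/-- `∏_{p ≤ T(n)} (1 - 1/p)⁻¹` if `n` has no prime factor `p ≤ T(n)`, and `0` otherwise. -/
noncomputable def weight (T : ℕ → ℕ) (n : ℕ) : ℝ :=
  if ∀ p, p.Prime → p ≤ T n → ¬ p ∣ n then
    ∏ p ∈ (Finset.Icc 1 (T n)).filter Nat.Prime, (1 - 1 / (p : ℝ))⁻¹ else 0

/-- The random model: `E n` is the event that `n` is chosen; these events are independent and have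
probability `weight T n / log n` (if this is at most `1`, which is the case for all large `n` here). -/
structure Model {Ω : Type*} [MeasurableSpace Ω] (μ : Measure Ω) (T : ℕ → ℕ) (E : ℕ → Set Ω) : Prop where
  meas : ∀ n, MeasurableSet (E n)
  indep : iIndepSet E μ
  law : ∀ n : ℕ, μ.real (E n) = min 1 (weight T n / Real.log n)

/-- The number of elements of `Q` in `(x, x + y]`. -/
noncomputable def N (Q : Set ℕ) (x y : ℕ) : ℕ := {n | n ∈ Q ∧ x < n ∧ n ≤ x + y}.ncard

/-- `limsup_x N(x, y)`: the analogue of `ρ(y)` for `Q` in place of the primes. -/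
noncomputable def rho (Q : Set ℕ) (y : ℕ) : ℕ := limsup (fun x => N Q x y) atTop

/-- `y log log log y / (log y)²` -/
noncomputable def marg (y : ℕ) : ℝ := y * Real.log (Real.log (Real.log y)) / (Real.log y) ^ 2

theorem toSieved {Ω : Type*} [MeasurableSpace Ω] {μ : Measure Ω} {T : ℕ → ℕ} {E : ℕ → Set Ω}
    (h : Model μ T E) : Pool.Agent.U839.Sv.Sieved μ E T :=
  ⟨h.meas, h.indep, h.law⟩

theorem N_eq (Q : Set ℕ) (x k : ℕ) : N Q x k = Pool.Agent.U839.Hl.NN Q x k := by
  classical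
  unfold N Pool.Agent.U839.Hl.NN
  rw [← Set.ncard_coe_finset]
  congr 1
  ext n
  simp only [Set.mem_ofPred_eq, Finset.coe_filter, Finset.mem_Ioc]
  tauto

theorem rho_ge (Q : Set ℕ) (k b : ℕ) (h : ∃ᶠ x in atTop, b ≤ N Q x k) : b ≤ rho Q k := by
  unfold rho
  exact le_limsup_of_frequently_le h
    (isBoundedUnder_of ⟨k, fun x => by rw [N_eq]; exact Pool.Agent.U839.Hl.NN_le Q x k⟩)

/-- (1), (2), (3). -/
theorem result.{u} (θ : ℝ) (hθ : 0 < θ) : ∃ c : ℝ, 0 < c ∧ ∀ T : ℕ → ℕ, Monotone T →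
    (∀ᶠ n : ℕ in atTop, (T n : ℝ) ≤ (Real.log n) ^ θ) →
    ∀ (Ω : Type u) [MeasurableSpace Ω] (μ : Measure Ω) [IsProbabilityMeasure μ] (E : ℕ → Set Ω),
    Model μ T E →
    -- (1)
    (∀ᵐ ω ∂μ, ∀ α : ℝ, α < 1 / 2 → ∃ y₀ : ℕ, ∀ᶠ X : ℕ in atTop, ∀ y : ℕ, y₀ ≤ y →
      (y : ℝ) ≤ c * Real.log X → ∃ x : ℕ, X < x ∧ x ≤ 2 * X ∧
        max (Nat.primeCounting y : ℝ) (N {n | ω ∈ E n} 0 y) + α * marg y ≤ N {n | ω ∈ E n} x y) ∧
    -- (2)
    (∀ᵐ ω ∂μ, (∀ α : ℝ, α < 1 / 2 → ∀ᶠ y : ℕ in atTop,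
        (Nat.primeCounting y : ℝ) + α * marg y ≤ rho {n | ω ∈ E n} y) ∧
      Tendsto (fun y : ℕ => (Nat.primeCounting y : ℝ) - rho {n | ω ∈ E n} y) atTop atBot) ∧
    -- (3)
    (∀ ε η : ℝ, 0 < ε → 0 < η → ∀ᵐ ω ∂μ, ∀ᶠ x : ℕ in atTop, ∀ y : ℕ, (1 + ε) * Real.log x ≤ y → y ≤ x →
      (N {n | ω ∈ E n} x y : ℝ) ≤
        min (Nat.primeCounting y : ℝ) (N {n | ω ∈ E n} 0 y) - (1 - η) * (y / (Real.log y) ^ 2)) ∧
    (∀ ε : ℝ, 0 < ε → ∀ᵐ ω ∂μ, ∀ᶠ x : ℕ in atTop, ∀ y : ℕ, (1 + ε) * Real.log x ≤ y → y ≤ x →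
      N {n | ω ∈ E n} 0 (x + y) ≤ N {n | ω ∈ E n} 0 x + N {n | ω ∈ E n} 0 y) := by
  obtain ⟨c, hc, hc1, hmain⟩ := Pool.Agent.U839.Hl.unif2 θ hθ
  refine ⟨c, hc, fun T hT hTθ Ω _ μ _ E hE => ?_⟩
  have hS := toSieved hE
  obtain ⟨Kp, hKp, hpi⟩ := Pool.Agent.U746.HL.pi_near
  have hcnt := Pool.Agent.U746.HL.cnt_model θ hθ T hTθ hT hS
  have hup : ∀ ε η : ℝ, 0 < ε → 0 < η → ∀ᵐ ω ∂μ, ∀ᶠ x : ℕ in atTop, ∀ y : ℕ,
      (1 + ε) * Real.log x ≤ y → y ≤ x → (N {n | ω ∈ E n} x y : ℝ) ≤
        min (Nat.primeCounting y : ℝ) (N {n | ω ∈ E n} 0 y) - (1 - η) * (y / (Real.log y) ^ 2) := by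
    intro ε η hε hη
    filter_upwards [Pool.Agent.U746.HL.upper θ hθ T hTθ hT hS ε hε η hη, hcnt] with ω h1 ⟨K, hK, h2⟩
    filter_upwards [h1 (max Kp K), Pool.Agent.U839.Thin.tlog.eventually_ge_atTop 2] with x h3 h4 y hy1 hy2
    have hy : 2 ≤ y := by
      have : (2 : ℝ) ≤ y := by nlinarith
      exact_mod_cast this
    have hy0 : (1 : ℝ) < y := by exact_mod_cast (by omega : 1 < y)
    have hL : 0 < Real.log y := Real.log_pos hy0
    have hp : 0 ≤ (y : ℝ) / Real.log y ^ 3 := by positivity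
    simp only [N_eq]
    have e1 := h3 y hy1 hy2 (Nat.primeCounting y) ((hpi y hy).trans (by gcongr; exact le_max_left _ _))
    have e2 := h3 y hy1 hy2 (Pool.Agent.U839.Hl.NN {n | ω ∈ E n} 0 y)
      ((h2 y hy).trans (by gcongr; exact le_max_right _ _))
    have : (Pool.Agent.U839.Hl.NN {n | ω ∈ E n} x y : ℝ) + (1 - η) * (y / (Real.log y) ^ 2) ≤
        min (Nat.primeCounting y : ℝ) (Pool.Agent.U839.Hl.NN {n | ω ∈ E n} 0 y) :=
      le_min (by linarith) (by linarith)
    linarith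
  refine ⟨?_, ?_, hup, ?_⟩
  · filter_upwards [hmain T hT hTθ Ω μ E hS, hcnt] with ω h1 ⟨K, hK, h2⟩ α hα
    obtain ⟨y₀, hy₀⟩ := eventually_atTop.1 (Pool.Agent.U746.HL.HH_low α (max Kp K) hα)
    refine ⟨max y₀ 2, ?_⟩
    filter_upwards [h1] with X hX y hy hyc
    obtain ⟨x, hx1, hx2, hx3⟩ := hX y hyc
    refine ⟨x, hx1, by omega, ?_⟩
    have hy2 : 2 ≤ y := (le_max_right _ _).trans hy
    have hy1 : (1 : ℝ) < y := by exact_mod_cast (by omega : 1 < y)
    have hL : 0 < Real.log y := Real.log_pos hy1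
    have hp : 0 ≤ (y : ℝ) / Real.log y ^ 3 := by positivity
    have h3 := hy₀ y ((le_max_left _ _).trans hy)
    have e1 := h3 (Nat.primeCounting y) ((hpi y hy2).trans (by gcongr; exact le_max_left _ _))
    have e2 := h3 (Pool.Agent.U839.Hl.NN {n | ω ∈ E n} 0 y)
      ((h2 y hy2).trans (by gcongr; exact le_max_right _ _))
    have e3 : (Pool.Agent.U839.Hl.HH y : ℝ) ≤ Pool.Agent.U839.Hl.NN {n | ω ∈ E n} x y := by
      exact_mod_cast hx3
    simp only [N_eq]
    have e4 : max (Nat.primeCounting y : ℝ) (Pool.Agent.U839.Hl.NN {n | ω ∈ E n} 0 y) ≤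
        Pool.Agent.U839.Hl.HH y - α * marg y := by
      have this : Pool.Agent.U746.HL.mg y = marg y := rfl
      rw [this] at e1 e2
      apply max_le
      · linarith
      · linarith
    linarith
  · filter_upwards [hmain T hT hTθ Ω μ E hS] with ω h1
    have h2 : ∀ α : ℝ, α < 1 / 2 → ∀ᶠ y : ℕ in atTop,
        (Nat.primeCounting y : ℝ) + α * marg y ≤ rho {n | ω ∈ E n} y := by
      intro α hα
      filter_upwards [Pool.Agent.U746.HL.HH_pi α hα] with y hy
      have h3 : Pool.Agent.U839.Hl.HH y ≤ rho {n | ω ∈ E n} y := by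
        apply rho_ge
        rw [Filter.frequently_atTop]
        intro a
        obtain ⟨X, hX1, hX2, hX3⟩ := (h1.and ((eventually_ge_atTop a).and
          (Pool.Agent.U839.Thin.tlog.eventually_ge_atTop (y / c)))).exists
        obtain ⟨n, hn1, hn2, hn3⟩ := hX1 y (by rw [div_le_iff₀ hc] at hX3; linarith)
        exact ⟨n, by omega, by rw [N_eq]; exact hn3⟩
      have h4 : (Pool.Agent.U839.Hl.HH y : ℝ) ≤ rho {n | ω ∈ E n} y := by exact_mod_cast h3
      have h5 : α * (y * Real.log (Real.log (Real.log y)) / (Real.log y) ^ 2) = α * marg y := rfl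
      linarith
    refine ⟨h2, ?_⟩
    have h3 : Tendsto (fun y : ℕ => -(1 / 4 * Pool.Agent.U746.HL.mg y)) atTop atBot :=
      tendsto_neg_atTop_atBot.comp (Pool.Agent.U746.HL.mg_tendsto.const_mul_atTop (by norm_num))
    apply tendsto_atBot_mono' _ _ h3
    filter_upwards [h2 (1 / 4) (by norm_num)] with y hy
    have : Pool.Agent.U746.HL.mg y = marg y := rfl
    rw [this]
    linarith
  · intro ε hε
    filter_upwards [hup ε (1 / 2) hε (by norm_num)] with ω h1
    filter_upwards [h1] with x h2 y hy1 hy2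
    have h3 := h2 y hy1 hy2
    have h4 := min_le_right (Nat.primeCounting y : ℝ) (N {n | ω ∈ E n} 0 y)
    have h5 : 0 ≤ (1 - 1 / 2 : ℝ) * (y / (Real.log y) ^ 2) := by positivity
    have h6 : (N {n | ω ∈ E n} x y : ℝ) ≤ N {n | ω ∈ E n} 0 y := by linarith
    have h7 : N {n | ω ∈ E n} x y ≤ N {n | ω ∈ E n} 0 y := by exact_mod_cast h6
    have h8 : N {n | ω ∈ E n} 0 (x + y) = N {n | ω ∈ E n} 0 x + N {n | ω ∈ E n} x y := by
      simp only [N_eq]
      exact Pool.Agent.U746.HL.NN_add _ x y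
    omega

end Pool.Agent.Results.MP_5046ca_nt.RandomModels
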