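import Mathlib
import Pool.Agent.U98.TZ.B8
import Pool.Agent.R463.EX9
import Pool.Agent.H381R2.HR.Main

set_option autoImplicit false

/-!
# Windows with more almost primes than `π(y)`, with a prime

Let `ρ(y)` be the limsup of `π(x + y) - π(x)`. The question is whether `π(y) - ρ(y)` tends to `+∞`. Call an integer rough
at the level `w` if it has no prime factors `p ≤ w`, and let `ρ_w(y)` be the limsup for `x → ∞` of the number of the
integers in `(x, x + y]` which are rough at the level `w(x)`, where `x` runs over the integers for which `(x, x + y]`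
contains a PRIME. For every level function `w` which tends to infinity monotonically with `w(x) = x ^ o(1)` we have
`ρ_w(y) = max_m h_m(y)`, `h_m(y)` the number of the integers in `(m, m + y]` without prime factors `p ≤ y`, and
`π(y) - ρ_w(y)` tends to `-∞`. The optimal windows occur with the expected frequency, also with a prime at any
prescribed place, and the types of successive optimal windows are independent of each other and of the distances, which
have the exponential law.
-/

namespace Pool.Agent.Results.MP_5046ca_nt.WindowsBeatPi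

open Finset

/-- `h_m(k)`: the number of the integers `m < n ≤ m + k` without prime factors `p ≤ k` -/
noncomputable def h (m k : ℕ) : ℕ := {n | m < n ∧ n ≤ m + k ∧ ∀ p : ℕ, p.Prime → p ≤ k → ¬ p ∣ n}.ncard

/-- `max_m h_m(k)` (the values are at most `k`) -/
noncomputable def hmax (k : ℕ) : ℕ := sSup (Set.range fun m => h m k)

/-- `n` has no prime factors `p ≤ w` -/
def Rough (w n : ℕ) : Prop := ∀ p : ℕ, p.Prime → p ≤ w → ¬ p ∣ n

/-- the number of the rough numbers in the window `[n, n + k)` -/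
noncomputable def count (w n k : ℕ) : ℕ := {i | i < k ∧ Rough w (n + i)}.ncard

/-- the window `[n, n + k)` is full -/
def Full (w k n : ℕ) : Prop := Rough w n ∧ count w n k = hmax k

/-- the rough numbers in `[n, n + k)` are exactly the numbers `n + i`, `i ∈ S` -/
def Window (w k : ℕ) (S : Finset ℕ) (n : ℕ) : Prop := ∀ i < k, (Rough w (n + i) ↔ i ∈ S)

/-- the types: the sets of `max_m h_m(k)` integers in `[0, k)` which contain `0` -/
noncomputable def types (k : ℕ) : Finset (Finset ℕ) := (range k).powerset.filter (fun S => 0 ∈ S ∧ S.card = hmax k)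

/-- the number of the residue classes modulo `p` which contain elements of `S` -/
def nu (S : Finset ℕ) (p : ℕ) : ℕ := (S.image (fun x => x % p)).card

/-- the weight of the type `S` -/
noncomputable def weight (k : ℕ) (S : Finset ℕ) : ℝ := ∏ p ∈ (Icc 1 k).filter Nat.Prime, ((p : ℝ) - nu S p)

/-- the sum of the weights of all types -/
noncomputable def total (k : ℕ) : ℝ := ∑ S ∈ types k, weight k S

/-- the density of the full windows -/
noncomputable def density (w k : ℕ) : ℝ :=
  total k * ∏ p ∈ (Icc 1 w).filter Nat.Prime, (if p ≤ k then 1 / (p : ℝ) else 1 - (hmax k : ℝ) / (p : ℝ))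

/-- the next full window -/
noncomputable def next (w k n : ℕ) : ℕ := sInf {m | n < m ∧ Full w k m}

/-- The number of the full windows at `n ∈ (Z, Z + Y]` such that this and the next `l` full windows have the types
`S 0, ..., S l` and the `l` distances between them are in `(s j, T j]`. -/
noncomputable def windowCount (w k l : ℕ) (S : ℕ → Finset ℕ) (s T : ℕ → ℕ) (Z Y : ℕ) : ℕ :=
  Set.ncard {n : ℕ | Z < n ∧ n ≤ Z + Y ∧ (∀ j ≤ l, Window w k (S j) ((next w k)^[j] n)) ∧
    ∀ j < l, s j < (next w k)^[j + 1] n - (next w k)^[j] n ∧ (next w k)^[j + 1] n - (next w k)^[j] n ≤ T j}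

/-- the number of the windows of the type `S` at `n ∈ (u, u + Y]` for which `n + b` is prime -/
noncomputable def primeCount (w k : ℕ) (S : Finset ℕ) (b u Y : ℕ) : ℕ :=
  Set.ncard {n : ℕ | u < n ∧ n ≤ u + Y ∧ Window w k S n ∧ (n + b).Prime}

/-- the product of `1 - 1 / p` over the primes `p ≤ w` -/
noncomputable def mertens (w : ℕ) : ℝ := ∏ p ∈ (Icc 1 w).filter Nat.Prime, (1 - 1 / (p : ℝ))

/-- the number of the integers in `(x, x + y]` without prime factors `p ≤ w x` -/
noncomputable def number (w : ℕ → ℕ) (x y : ℕ) : ℕ := {n | x < n ∧ n ≤ x + y ∧ Rough (w x) n}.ncard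

open Classical in
/-- `ρ_w(y)`: the limsup of the number of the integers in `(x, x + y]` which are rough at the level `w x`, for the `x` for
which `(x, x + y]` contains a prime -/
noncomputable def rhoW (w : ℕ → ℕ) (y : ℕ) : ℕ :=
  Filter.limsup (fun x : ℕ => if ∃ p, x < p ∧ p ≤ x + y ∧ p.Prime then number w x y else 0) Filter.atTop

/-- a level function: monotone, tends to infinity, `w x = x ^ o(1)` -/
def Level (w : ℕ → ℕ) : Prop :=
  Monotone w ∧ Filter.Tendsto w Filter.atTop Filter.atTop ∧ ∀ r : ℕ, ∀ᶠ x : ℕ in Filter.atTop, w x ^ r ≤ x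

open Pool.Agent.U98.TZ Pool.Agent.U98.TY Pool.Agent.H373R2.T7 Pool.Agent.TH464.PO Pool.Agent.W123.RP

lemma h_set (m k : ℕ) : {n | m < n ∧ n ≤ m + k ∧ ∀ p : ℕ, p.Prime → p ≤ k → ¬ p ∣ n}.Finite :=
  (Set.finite_Icc 0 (m + k)).subset (fun _ hn => ⟨Nat.zero_le _, hn.2.1⟩)

lemma h_le (m k : ℕ) : h m k ≤ k := by
  unfold h
  have h1 : {n | m < n ∧ n ≤ m + k ∧ ∀ p : ℕ, p.Prime → p ≤ k → ¬ p ∣ n} ⊆ ((Ioc m (m + k) : Finset ℕ) : Set ℕ) := by
    intro n hn
    rw [Finset.mem_coe, mem_Ioc]
    exact ⟨hn.1, hn.2.1⟩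
  have h2 := Set.ncard_le_ncard h1 (Finset.finite_toSet _)
  rw [Set.ncard_coe_finset, Nat.card_Ioc] at h2
  omega

lemma h_bdd (k : ℕ) : BddAbove (Set.range fun m => h m k) := by
  refine ⟨k, ?_⟩
  rintro x ⟨m, rfl⟩
  exact h_le m k

lemma h_le_hmax (m k : ℕ) : h m k ≤ hmax k := le_csSup (h_bdd k) ⟨m, rfl⟩

lemma hmax_att (k : ℕ) : ∃ m, h m k = hmax k := by
  have := Nat.sSup_mem (Set.range_nonempty fun m => h m k) (h_bdd k)
  obtain ⟨m, hm⟩ := this
  exact ⟨m, hm⟩

lemma count_set (w n k : ℕ) : {i | i < k ∧ Rough w (n + i)}.Finite :=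
  (Set.finite_Iio k).subset (fun _ hi => hi.1)

lemma count_le (w n k : ℕ) (hw : k ≤ w) (hn : 1 ≤ n) : count w n k ≤ hmax k := by
  refine le_trans ?_ (h_le_hmax (n - 1) k)
  unfold count h
  refine Set.ncard_le_ncard_of_injOn (fun i => n + i) ?_ ?_ (h_set _ _)
  · intro i hi
    refine ⟨?_, ?_, ?_⟩
    · show n - 1 < n + i
      omega
    · show n + i ≤ n - 1 + k
      have := hi.1
      omega
    · intro p hp hpk
      exact hi.2 p hp (hpk.trans hw)
  · intro a _ b _ hab
    have : n + a = n + b := hab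
    omega

lemma hmax_pos (k : ℕ) (hk : 1 ≤ k) : 1 ≤ hmax k := by
  refine le_trans ?_ (h_le_hmax 0 k)
  unfold h
  rw [Nat.succ_le_iff, Set.ncard_pos (h_set 0 k)]
  refine ⟨1, by norm_num, by omega, ?_⟩
  intro p hp _ hd
  exact hp.one_lt.ne' (Nat.dvd_one.1 hd)

lemma mem_types (k : ℕ) (S : Finset ℕ) : S ∈ types k ↔ S ⊆ range k ∧ 0 ∈ S ∧ S.card = hmax k := by
  unfold types
  rw [mem_filter, mem_powerset]

open Classical in
/-- an admissible type -/
lemma exists_type (k : ℕ) (hk : 1 ≤ k) : ∃ S ∈ types k, ∀ p : ℕ, p.Prime → nu S p < p := by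
  obtain ⟨m, hm⟩ := hmax_att k
  obtain ⟨A, hA⟩ : ∃ A : Finset ℕ, A = (range k).filter (fun i => ∀ p : ℕ, p.Prime → p ≤ k → ¬ p ∣ m + 1 + i) :=
    ⟨_, rfl⟩
  have hAcard : A.card = hmax k := by
    rw [← hm]
    unfold h
    rw [← Set.ncard_coe_finset]
    apply Set.ncard_congr (fun i _ => m + 1 + i)
    · intro i hi
      rw [Finset.mem_coe, hA, mem_filter, mem_range] at hi
      refine ⟨?_, ?_, ?_⟩
      · show m < m + 1 + i
        omega
      · show m + 1 + i ≤ m + k
        omega
      · exact hi.2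
    · intro a b _ _ hab
      have : m + 1 + a = m + 1 + b := hab
      omega
    · intro n hn
      refine ⟨n - (m + 1), ?_, ?_⟩
      · rw [Finset.mem_coe, hA, mem_filter, mem_range]
        have h1 := hn.1
        have h2 := hn.2.1
        refine ⟨by omega, ?_⟩
        rw [show m + 1 + (n - (m + 1)) = n by omega]
        exact hn.2.2
      · have h1 := hn.1
        show m + 1 + (n - (m + 1)) = n
        omega
  have hApos : A.Nonempty := by
    rw [← Finset.card_pos, hAcard]
    exact hmax_pos k hk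
  obtain ⟨a, ha⟩ : ∃ a, a = A.min' hApos := ⟨_, rfl⟩
  have haA : a ∈ A := by rw [ha]; exact Finset.min'_mem A hApos
  have hamin : ∀ i ∈ A, a ≤ i := fun i hi => by rw [ha]; exact Finset.min'_le A i hi
  have hinj : Set.InjOn (fun i => i - a) (A : Set ℕ) := by
    intro x hx y hy hxy
    have h1 := hamin x (Finset.mem_coe.1 hx)
    have h2 := hamin y (Finset.mem_coe.1 hy)
    have h3 : x - a = y - a := hxy
    omega
  have hScard : (A.image (fun i => i - a)).card = hmax k := by
    rw [card_image_of_injOn hinj, hAcard]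
  refine ⟨A.image (fun i => i - a), ?_, ?_⟩
  · rw [mem_types]
    refine ⟨?_, ?_, hScard⟩
    · intro x hx
      rw [mem_image] at hx
      obtain ⟨i, hi, rfl⟩ := hx
      rw [hA, mem_filter, mem_range] at hi
      rw [mem_range]
      omega
    · rw [mem_image]
      exact ⟨a, haA, Nat.sub_self a⟩
  · intro p hp
    by_cases hpk : p ≤ k
    · unfold nu
      have h1 : (A.image (fun i => i - a)).image (fun x => x % p) ⊆ (range p).erase ((p - (m + 1 + a) % p) % p) := by
        intro r hr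
        rw [mem_image] at hr
        obtain ⟨x, hx, rfl⟩ := hr
        rw [mem_image] at hx
        obtain ⟨i, hi, rfl⟩ := hx
        rw [mem_erase, mem_range]
        refine ⟨?_, Nat.mod_lt _ hp.pos⟩
        intro hcon
        have hi' := hi
        rw [hA, mem_filter] at hi'
        apply hi'.2 p hp hpk
        have h2 : i - a ≡ p - (m + 1 + a) % p [MOD p] := hcon
        have h3 : (m + 1 + a) % p ≡ m + 1 + a [MOD p] := Nat.mod_modEq _ _
        have h4 : (i - a) + (m + 1 + a) ≡ (p - (m + 1 + a) % p) + (m + 1 + a) % p [MOD p] := h2.add h3.symm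
        have h5 := hamin i hi
        rw [show (i - a) + (m + 1 + a) = m + 1 + i by omega,
          Nat.sub_add_cancel (Nat.mod_lt (m + 1 + a) hp.pos).le] at h4
        exact (Nat.modEq_zero_iff_dvd).1 (h4.trans (Nat.modEq_zero_iff_dvd.2 dvd_rfl))
      have h2 := card_le_card h1
      rw [card_erase_of_mem (mem_range.2 (Nat.mod_lt _ hp.pos)), card_range] at h2
      have := hp.pos
      omega
    · have h1 : nu (A.image (fun i => i - a)) p ≤ (A.image (fun i => i - a)).card := card_image_le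
      have h2 : hmax k ≤ k := by
        rw [← hm]
        exact h_le m k
      omega

/-- windows and blocks -/
lemma window_iff (w k n : ℕ) (S : Finset ℕ) (hS : S ∈ types k) (hw : k ≤ w) (hw2 : 2 ≤ w) :
    Window w k S n ↔ Blk w S n := by
  rw [mem_types] at hS
  obtain ⟨hS1, hS2, hS3⟩ := hS
  have hk : 0 < k := mem_range.1 (hS1 hS2)
  have hsup : S.sup id < k := by
    rw [Finset.sup_lt_iff (by exact hk)]
    intro i hi
    exact mem_range.1 (hS1 hi)
  unfold Window Blk
  constructor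
  · intro h1 i hi
    exact h1 i (by omega)
  · intro h1 i hi
    have hle : ∀ j ∈ S, j ≤ S.sup id := fun j hj => Finset.le_sup (f := id) hj
    rcases Nat.eq_zero_or_pos n with hn | hn
    · exfalso
      subst hn
      have h2 := (h1 0 (Nat.zero_le _)).2 hS2
      exact h2 2 Nat.prime_two hw2 (dvd_zero 2)
    · constructor
      · intro hR
        by_contra hcon
        have hsub : ((insert i S : Finset ℕ) : Set ℕ) ⊆ {i | i < k ∧ Rough w (n + i)} := by
          intro j hj
          rw [Finset.mem_coe, mem_insert] at hj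
          rcases hj with rfl | hj
          · exact ⟨hi, hR⟩
          · exact ⟨mem_range.1 (hS1 hj), (h1 j (hle j hj)).2 hj⟩
        have h3 := Set.ncard_le_ncard hsub (count_set w n k)
        rw [Set.ncard_coe_finset, card_insert_of_notMem hcon] at h3
        have h4 := count_le w n k hw hn
        unfold count at h4
        omega
      · intro hj
        exact (h1 i (hle i hj)).2 hj

open Classical in
lemma full_iff (w k n : ℕ) (hk : 1 ≤ k) : Full w k n ↔ ∃ S ∈ types k, Window w k S n := by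
  unfold Full
  constructor
  · rintro ⟨h1, h2⟩
    refine ⟨(range k).filter (fun i => Rough w (n + i)), ?_, ?_⟩
    · rw [mem_types]
      refine ⟨filter_subset _ _, ?_, ?_⟩
      · rw [mem_filter, mem_range]
        exact ⟨by omega, h1⟩
      · rw [← h2]
        unfold count
        rw [← Set.ncard_coe_finset]
        congr 1
        ext i
        simp
    · intro i hi
      rw [mem_filter, mem_range]
      exact ⟨fun h => ⟨hi, h⟩, fun h => h.2⟩
  · rintro ⟨S, hS, h1⟩
    rw [mem_types] at hS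
    refine ⟨(h1 0 (by omega)).2 hS.2.1, ?_⟩
    rw [← hS.2.2]
    unfold count
    rw [← Set.ncard_coe_finset]
    congr 1
    ext i
    rw [Finset.mem_coe]
    constructor
    · rintro ⟨h2, h3⟩
      exact (h1 i h2).1 h3
    · intro h2
      have h3 := mem_range.1 (hS.1 h2)
      exact ⟨h3, (h1 i h3).2 h2⟩

lemma nu_le (S : Finset ℕ) (p : ℕ) (hp : 0 < p) : nu S p ≤ p := by
  unfold nu
  have : S.image (fun x => x % p) ⊆ range p := by
    intro x hx
    rw [mem_image] at hx
    obtain ⟨y, _, rfl⟩ := hx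
    exact mem_range.2 (Nat.mod_lt _ hp)
  have := card_le_card this
  rwa [card_range] at this

lemma dS_type (w k : ℕ) (S : Finset ℕ) (hS : S ∈ types k) (hw : k ≤ w) : dS w S = weight k S *
    ∏ p ∈ (Icc 1 w).filter Nat.Prime, (if p ≤ k then 1 / (p : ℝ) else 1 - (hmax k : ℝ) / (p : ℝ)) := by
  rw [mem_types] at hS
  unfold dS weight
  have h4 : ∏ p ∈ (Icc 1 k).filter Nat.Prime, ((p : ℝ) - nu S p) =
      ∏ p ∈ (Icc 1 w).filter Nat.Prime, (if p ≤ k then ((p : ℝ) - nu S p) else 1) := by
    rw [← Finset.prod_filter]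
    apply prod_congr _ (fun _ _ => rfl)
    ext p
    rw [mem_filter, mem_filter, mem_filter, mem_Icc, mem_Icc]
    constructor
    · rintro ⟨⟨a1, a2⟩, a3⟩
      exact ⟨⟨⟨a1, a2.trans hw⟩, a3⟩, a2⟩
    · rintro ⟨⟨⟨a1, _⟩, a3⟩, a2⟩
      exact ⟨⟨a1, a2⟩, a3⟩
  rw [h4, ← Finset.prod_mul_distrib]
  apply prod_congr rfl
  intro p hp
  rw [mem_filter] at hp
  have hp0 : (0 : ℝ) < p := by exact_mod_cast hp.2.pos
  split_ifs with h5
  · show 1 - (nu S p : ℝ) / p = _
    field_simp
  · have h6 : nuS S p = hmax k := by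
      rw [nuS_large S (k - 1) p (fun i hi => by
        have := mem_range.1 (hS.1 hi)
        omega) (by omega), hS.2.2]
    rw [h6, one_mul]

/-- the facts on the optimal windows -/
theorem windows (k : ℕ) (hk : 1 ≤ k) :
    -- some elementary facts
    (∀ w n : ℕ, k ≤ w → 1 ≤ n → count w n k ≤ hmax k) ∧
    (∀ w n : ℕ, Full w k n ↔ ∃ S ∈ types k, Window w k S n) ∧
    (∀ w n s : ℕ, 0 < n → n ≤ w ^ s → Rough w n → n.primeFactorsList.length ≤ s) ∧
    0 < total k ∧
    -- full windows with a prime at a prescribed place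
    (∀ ε δ : ℝ, 0 < ε → 0 < δ → δ ≤ 1 → ∃ r w₀ : ℕ, ∀ w : ℕ, w₀ ≤ w → ∀ X : ℕ, w ^ r ≤ X →
      ∀ S ∈ types k, ∀ b ∈ S, ∀ u Y : ℕ, δ * X ≤ u → δ * X ≤ Y → u + Y ≤ X →
        |(primeCount w k S b u Y : ℝ) * Real.log X -
            Y * (density w k * (weight k S / total k)) / mertens w| ≤
          ε * (Y * (density w k * (weight k S / total k)) / mertens w)) ∧
    -- the law of the types of successive full windows
    (∀ l : ℕ, ∀ ε : ℝ, 0 < ε → ∃ K w₀ : ℕ, ∀ w : ℕ, w₀ ≤ w → ∀ Z Y : ℕ, w ^ K ≤ Y →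
      ∀ (S : ℕ → Finset ℕ) (s T : ℕ → ℕ), (∀ j ≤ l, S j ∈ types k) → (∀ j < l, s j ≤ T j) →
        |(windowCount w k l S s T Z Y : ℝ) - density w k * Y * (∏ j ∈ range (l + 1), weight k (S j) / total k) *
            ∏ j ∈ range l, (Real.exp (-(density w k * s j)) - Real.exp (-(density w k * T j)))| ≤
          ε * (density w k * Y)) := by
  classical
  obtain ⟨S0, hS0, hadm⟩ := exists_type k hk
  have hw0 : ∀ S, 0 ≤ weight k S := by
    intro S
    unfold weight
    apply prod_nonneg
    intro p hp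
    rw [mem_filter] at hp
    have := nu_le S p hp.2.pos
    have h1 : (nu S p : ℝ) ≤ p := by exact_mod_cast this
    linarith
  have hwp : 0 < weight k S0 := by
    unfold weight
    apply prod_pos
    intro p hp
    rw [mem_filter] at hp
    have := hadm p hp.2
    have h1 : (nu S0 p : ℝ) < p := by exact_mod_cast this
    linarith
  have htot : 0 < total k := Finset.sum_pos' (fun S _ => hw0 S) ⟨S0, hS0, hwp⟩
  refine ⟨fun w n hw hn => count_le w n k hw hn, fun w n => full_iff w k n hk,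
    fun w n s hn hns hR => few w s n hn hns hR, htot, ?_, ?_⟩
  · intro ε δ hε hδ hδ1
    obtain ⟨c1, C1, hc1, hC1, hVz⟩ := Pool.Agent.W123.RP.Vz_bounds
    obtain ⟨e1, he1⟩ : ∃ e1 : ℝ, e1 = min (ε / 2) 1 := ⟨_, rfl⟩
    have he10 : 0 < e1 := by rw [he1]; positivity
    have he11 : e1 ≤ 1 := by rw [he1]; exact min_le_right _ _
    have he12 : e1 ≤ ε / 2 := by rw [he1]; exact min_le_left _ _
    obtain ⟨r, y0, hmain⟩ := Pool.Agent.R463.EX.prime_rough (hmax k) (hmax_pos k hk) k e1 δ he10 hδ hδ1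
    have hlog : Filter.Tendsto (fun y : ℕ => Real.log (y : ℝ)) Filter.atTop Filter.atTop :=
      Real.tendsto_log_atTop.comp tendsto_natCast_atTop_atTop
    obtain ⟨y1, hy1⟩ := Filter.eventually_atTop.1 (hlog.eventually_ge_atTop (2 * k * C1 / ε + 1))
    refine ⟨r, max (max y0 y1) (max k 2), ?_⟩
    intro w hw X hX S hS b hb u Y hu hY huY
    have b1 : y0 ≤ w := ((le_max_left _ _).trans (le_max_left _ _)).trans hw
    have b2 : y1 ≤ w := ((le_max_right _ _).trans (le_max_left _ _)).trans hw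
    have b3 : k ≤ w := ((le_max_left _ _).trans (le_max_right _ _)).trans hw
    have b4 : 2 ≤ w := ((le_max_right _ _).trans (le_max_right _ _)).trans hw
    have hST := (mem_types k S).1 hS
    have hVQ : Vq Pool.Agent.R463.EX.Qi w = Vz w := Pool.Agent.R463.EX.Vz_Qi w
    have hVz0 : 0 < Vz w := Pool.Agent.H373R2.T7.Vz_pos w
    have hVz1 : Vz w ≤ 1 := by
      rw [← hVQ]
      exact Vq_le_one _ w
    have hk0 : (0 : ℝ) ≤ k := Nat.cast_nonneg k
    have hkm : (((k - 1 : ℕ) : ℕ) : ℝ) ≤ k := by exact_mod_cast Nat.sub_le k 1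
    have h1 := hmain w b1 X hX S hST.2.2 hST.2.1 b hb (k - 1) (by
      rw [Nat.sub_add_cancel hk]
      exact hST.1) (by
      rw [hVQ]
      calc (((k - 1 : ℕ) : ℕ) : ℝ) * Vz w ≤ k * 1 := mul_le_mul hkm hVz1 hVz0.le hk0
        _ = k := mul_one _) u Y hu hY huY
    -- the count
    have hcount : Pool.Agent.R463.EX.exP 1 b Pool.Agent.R463.EX.Qi S (k - 1) w u Y = primeCount w k S b u Y := by
      unfold Pool.Agent.R463.EX.exP primeCount
      rw [← Set.ncard_coe_finset]
      congr 1
      ext n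
      rw [Finset.mem_coe, mem_filter, mem_Ioc, one_mul]
      have hSf : ∀ m, Pool.Agent.TH464.PO.Sf Pool.Agent.R463.EX.Qi w m ↔ Rough w m := by
        intro m
        unfold Pool.Agent.TH464.PO.Sf Rough Pool.Agent.R463.EX.Qi
        constructor
        · intro h2 p hp hpw
          exact h2 p (mem_pz.2 ⟨hpw, hp⟩)
        · intro h2 p hp
          exact h2 p (mem_pz.1 hp).2 (mem_pz.1 hp).1
      simp only [hSf]
      unfold Window
      constructor
      · rintro ⟨⟨a1, a2⟩, a3, a4⟩
        exact ⟨a1, a2, fun i hi => a4 i (by omega), a3⟩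
      · rintro ⟨a1, a2, a3, a4⟩
        exact ⟨⟨a1, a2⟩, a4, fun i hi => a3 i (by omega)⟩
    -- the density
    have hdens : density w k * (weight k S / total k) = dS w S := by
      rw [dS_type w k S hS b3]
      unfold density
      field_simp
    have hVH : Vq (Pool.Agent.TH464.PO.QH Pool.Agent.R463.EX.Qi S) w = dS w S := by
      unfold Vq dS
      apply prod_congr rfl
      intro p hp
      rw [Pool.Agent.R463.EX.nuB_QH_Qi S p (mem_pz.1 hp).2]
      rfl
    have hmert : mertens w = Vz w := rfl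
    rw [hcount, hVH, hVQ] at h1
    rw [hdens, hmert]
    obtain ⟨M, hM⟩ : ∃ M : ℝ, M = Y * dS w S / Vz w := ⟨_, rfl⟩
    have hM' : (Y : ℝ) * (dS w S / Vz w) = M := by rw [hM]; ring
    have hdS0 : 0 ≤ dS w S := by
      rw [← hVH]
      exact Vq_nonneg _ w
    have hM0 : 0 ≤ M := by rw [hM]; positivity
    rw [hM'] at h1
    rw [← hM]
    obtain ⟨x, hx⟩ : ∃ x : ℝ, x = (((k - 1 : ℕ) : ℕ) : ℝ) * Vz w := ⟨_, rfl⟩
    rw [← hx] at h1
    have hx0 : 0 ≤ x := by rw [hx]; positivity
    have hx1 : x ≤ ε / 2 := by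
      have hl := hy1 w b2
      have hl0 : 0 < Real.log w := by
        have : 0 ≤ 2 * k * C1 / ε := by positivity
        linarith
      have h2 := (hVz w b4).2
      rw [hx]
      calc (((k - 1 : ℕ) : ℕ) : ℝ) * Vz w ≤ k * (C1 / Real.log w) := mul_le_mul hkm h2 hVz0.le hk0
        _ ≤ ε / 2 := by
          rw [mul_div_assoc', div_le_iff₀ hl0]
          have h3 : 2 * k * C1 / ε ≤ Real.log w := by linarith
          rw [div_le_iff₀ hε] at h3
          linarith
    have hex1 : Real.exp (-x) ≤ 1 := Real.exp_le_one_iff.2 (by linarith)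
    have hex2 : 1 - x ≤ Real.exp (-x) := by
      have := Real.add_one_le_exp (-x)
      linarith
    have hex0 := Real.exp_pos (-x)
    obtain ⟨h2, h3⟩ := abs_le.1 h1
    have h4 : M * Real.exp (-x) ≤ M := by nlinarith
    have h5 : M * (1 - x) ≤ M * Real.exp (-x) := mul_le_mul_of_nonneg_left hex2 hM0
    have h6 : M * x ≤ M * (ε / 2) := mul_le_mul_of_nonneg_left hx1 hM0
    have h7 : e1 * (M * Real.exp (-x)) ≤ ε / 2 * M := by
      calc e1 * (M * Real.exp (-x)) ≤ e1 * M := mul_le_mul_of_nonneg_left h4 he10.le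
        _ ≤ ε / 2 * M := mul_le_mul_of_nonneg_right he12 hM0
    have h8 : 0 ≤ ε / 2 * M := by positivity
    rw [abs_le]
    constructor <;> nlinarith
  · intro l ε hε
    obtain ⟨K, w₀, hlaw⟩ := law_family (hmax k) l (types k) (by
      intro S hS
      have := (mem_types k S).1 hS
      exact ⟨this.2.2, this.2.1⟩)
      ⟨S0, hS0, hadm⟩ ε hε
    refine ⟨K, max w₀ (max k 2), ?_⟩
    intro w hw Z Y hY S s T hS hsT
    have b1 : w₀ ≤ w := (le_max_left _ _).trans hw
    have b2 : k ≤ w := ((le_max_left _ _).trans (le_max_right _ _)).trans hw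
    have b3 : 2 ≤ w := ((le_max_right _ _).trans (le_max_right _ _)).trans hw
    obtain ⟨c, hc⟩ : ∃ c : ℝ, c = ∏ p ∈ (Icc 1 w).filter Nat.Prime,
      (if p ≤ k then 1 / (p : ℝ) else 1 - (hmax k : ℝ) / (p : ℝ)) := ⟨_, rfl⟩
    have hhk : hmax k ≤ k := by
      obtain ⟨m, hm⟩ := hmax_att k
      rw [← hm]
      exact h_le m k
    have hc0 : 0 < c := by
      rw [hc]
      apply prod_pos
      intro p hp
      rw [mem_filter] at hp
      have hp1 : (0 : ℝ) < p := by exact_mod_cast hp.2.pos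
      split_ifs with h1
      · positivity
      · rw [sub_pos, div_lt_one hp1]
        exact_mod_cast (by omega : hmax k < p)
    have hD : density w k = ∑ S ∈ types k, dS w S := by
      unfold density total
      rw [← hc, Finset.sum_mul]
      apply Finset.sum_congr rfl
      intro S hS
      rw [dS_type w k S hS b2, ← hc]
    have hmain := hlaw w b1 Z Y hY S s T hS hsT (density w k) hD
    have hprod : ∏ j ∈ range (l + 1), dS w (S j) / density w k =
        ∏ j ∈ range (l + 1), weight k (S j) / total k := by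
      apply prod_congr rfl
      intro j hj
      rw [mem_range] at hj
      rw [dS_type w k (S j) (hS j (by omega)) b2]
      unfold density
      rw [← hc]
      field_simp
    rw [hprod] at hmain
    have hnx : nxB w (types k) = next w k := by
      funext n
      unfold nxB next
      congr 1
      ext m
      simp only [Set.mem_ofPred_eq]
      apply and_congr_right
      intro _
      rw [full_iff w k m hk]
      constructor
      · rintro ⟨S, hS, hB⟩
        exact ⟨S, hS, (window_iff w k m S hS b2 b3).2 hB⟩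
      · rintro ⟨S, hS, hB⟩
        exact ⟨S, hS, (window_iff w k m S hS b2 b3).1 hB⟩
    have hcount : cB w (types k) l S s T Z Y = windowCount w k l S s T Z Y := by
      unfold cB windowCount
      rw [hnx]
      congr 1
      ext n
      simp only [Set.mem_ofPred_eq]
      constructor
      · rintro ⟨a1, a2, a3, a4⟩
        exact ⟨a1, a2, fun j hj => (window_iff w k _ _ (hS j hj) b2 b3).2 (a3 j hj), a4⟩
      · rintro ⟨a1, a2, a3, a4⟩
        exact ⟨a1, a2, fun j hj => (window_iff w k _ _ (hS j hj) b2 b3).1 (a3 j hj), a4⟩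
    rw [hcount] at hmain
    exact hmain


/-- admissible sets give windows -/
lemma card_le_hmax (y : ℕ) (S : Finset ℤ) (hS : ∀ s ∈ S, 0 ≤ s ∧ (s : ℝ) < y)
    (hadm : ∀ q : ℕ, q.Prime → ∃ r : ℤ, ∀ s ∈ S, ¬ ((q : ℤ) ∣ s - r)) : S.card ≤ hmax y := by
  classical
  choose r hr using hadm
  -- the residues
  obtain ⟨P, hP⟩ : ∃ P : Finset ℕ, P = (Icc 1 y).filter Nat.Prime := ⟨_, rfl⟩
  have hPp : ∀ p ∈ P, p.Prime := by
    intro p hp
    rw [hP, mem_filter] at hp
    exact hp.2
  obtain ⟨a, ha⟩ : ∃ a : ℕ → ℕ, ∀ (p : ℕ) (hp : p.Prime), ((a p : ℕ) : ℤ) ≡ - 1 - r p hp [ZMOD (p : ℤ)] := by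
    refine ⟨fun p => if hp : p.Prime then ((- 1 - r p hp) % (p : ℤ)).toNat else 0, ?_⟩
    intro p hp
    have h1 : (if hp : p.Prime then ((- 1 - r p hp) % (p : ℤ)).toNat else 0) = ((- 1 - r p hp) % (p : ℤ)).toNat :=
      dif_pos hp
    show (((if hp : p.Prime then ((- 1 - r p hp) % (p : ℤ)).toNat else 0 : ℕ)) : ℤ) ≡ - 1 - r p hp [ZMOD (p : ℤ)]
    rw [h1, Int.toNat_of_nonneg (Int.emod_nonneg _ (by exact_mod_cast hp.ne_zero))]
    exact Int.mod_modEq _ _
  obtain ⟨m, hm⟩ := Nat.chineseRemainderOfFinset a (fun p => p) P (fun p hp => (hPp p hp).ne_zero) (by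
    intro p hp q hq hpq
    exact (Nat.coprime_primes (hPp p hp) (hPp q hq)).2 hpq)
  refine le_trans ?_ (h_le_hmax m y)
  unfold h
  rw [← Set.ncard_coe_finset]
  refine Set.ncard_le_ncard_of_injOn (fun s : ℤ => m + 1 + s.toNat) ?_ ?_ (h_set _ _)
  · intro s hs
    obtain ⟨h0, h1⟩ := hS s (Finset.mem_coe.1 hs)
    have h2 : s < y := by exact_mod_cast h1
    refine ⟨?_, ?_, ?_⟩
    · show m < m + 1 + s.toNat
      omega
    · show m + 1 + s.toNat ≤ m + y
      omega
    · intro p hp hpy hd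
      have hpP : p ∈ P := by
        rw [hP, mem_filter, mem_Icc]
        exact ⟨⟨hp.one_le, hpy⟩, hp⟩
      have h3 : ((m : ℕ) : ℤ) ≡ a p [ZMOD p] := by
        have := hm p hpP
        exact (Int.natCast_modEq_iff).2 this
      have h4 : ((m : ℕ) : ℤ) ≡ - 1 - r p hp [ZMOD p] := h3.trans (ha p hp)
      have h5 : (p : ℤ) ∣ ((m + 1 + s.toNat : ℕ) : ℤ) := by exact_mod_cast hd
      push_cast at h5
      rw [Int.toNat_of_nonneg h0] at h5
      apply hr p hp s (Finset.mem_coe.1 hs)
      have h6 := Int.modEq_iff_dvd.1 h4.symm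
      have h7 : s - r p hp = ((m : ℤ) + 1 + s) - ((m : ℤ) - (- 1 - r p hp)) := by ring
      rw [h7]
      exact dvd_sub h5 h6
  · intro s hs t ht hst
    obtain ⟨h0, _⟩ := hS s (Finset.mem_coe.1 hs)
    obtain ⟨h1, _⟩ := hS t (Finset.mem_coe.1 ht)
    have : m + 1 + s.toNat = m + 1 + t.toNat := hst
    omega

lemma number_le (w : ℕ → ℕ) (x y : ℕ) (hy : y ≤ w x) : number w x y ≤ hmax y := by
  refine le_trans ?_ (h_le_hmax x y)
  unfold number h
  apply Set.ncard_le_ncard _ (h_set _ _)
  intro n hn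
  exact ⟨hn.1, hn.2.1, fun p hp hpy => hn.2.2 p hp (hpy.trans hy)⟩

/-- infinitely many optimal windows with a prime -/
lemma frequently_full (w : ℕ → ℕ) (hw : Level w) (y : ℕ) (hy : 1 ≤ y) (N : ℕ) :
    ∃ x ≥ N, (∃ p, x < p ∧ p ≤ x + y ∧ p.Prime) ∧ hmax y ≤ number w x y := by
  obtain ⟨hmono, hlim, hsmall⟩ := hw
  obtain ⟨S, hS, hadm⟩ := exists_type y hy
  obtain ⟨_, _, _, htot, hprime, _⟩ := windows y hy
  obtain ⟨r, w₀, hmain⟩ := hprime (1 / 2) (1 / 8) (by norm_num) (by norm_num) (by norm_num)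
  have hST := (mem_types y S).1 hS
  obtain ⟨X, hX1, hX2, hX3⟩ := ((hlim.eventually_ge_atTop (max w₀ y)).and ((hsmall r).and
    (Filter.eventually_ge_atTop (8 * (N + 8))))).exists
  have b1 : w₀ ≤ w X := (le_max_left _ _).trans hX1
  have b2 : y ≤ w X := (le_max_right _ _).trans hX1
  obtain ⟨q, hq⟩ : ∃ q, q = X / 4 := ⟨_, rfl⟩
  have hq2 : X < 4 * q + 4 := by omega
  have hq3 : 4 * q ≤ X := by omega
  have hX0 : (64 : ℝ) ≤ X := by exact_mod_cast (by omega : 64 ≤ X)
  have hqX : (1 / 8 : ℝ) * X ≤ q := by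
    have : (X : ℝ) < 4 * q + 4 := by exact_mod_cast hq2
    linarith
  have h1 := hmain (w X) b1 X hX2 S hS 0 hST.2.1 q (2 * q) hqX (by
    push_cast
    have : (0 : ℝ) ≤ q := Nat.cast_nonneg q
    linarith) (by omega)
  have hdS : density (w X) y * (weight y S / total y) = dS (w X) S := by
    rw [dS_type (w X) y S hS b2]
    unfold density
    field_simp
  have hdS0 : 0 < dS (w X) S := by
    unfold dS
    apply prod_pos
    intro p hp
    rw [mem_filter] at hp
    have hp1 : (0 : ℝ) < p := by exact_mod_cast hp.2.pos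
    rw [sub_pos, div_lt_one hp1]
    exact_mod_cast hadm p hp.2
  rw [hdS] at h1
  have hm : 0 < mertens (w X) := Pool.Agent.H373R2.T7.Vz_pos (w X)
  have hq0 : (0 : ℝ) < q := by linarith
  have hpos : 0 < ((2 * q : ℕ) : ℝ) * dS (w X) S / mertens (w X) := by
    push_cast
    positivity
  have h2 : 0 < (primeCount (w X) y S 0 q (2 * q) : ℝ) * Real.log X := by
    have h3 := (abs_le.1 h1).1
    linarith
  have h3 : primeCount (w X) y S 0 q (2 * q) ≠ 0 := by
    intro h4
    rw [h4] at h2
    simp at h2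
  unfold primeCount at h3
  obtain ⟨n, hn1, hn2, hn3, hn4⟩ := Set.nonempty_of_ncard_ne_zero h3
  rw [add_zero] at hn4
  refine ⟨n - 1, by omega, ⟨n, by omega, by omega, hn4⟩, ?_⟩
  rw [← hST.2.2]
  unfold number
  rw [← Set.ncard_coe_finset]
  refine Set.ncard_le_ncard_of_injOn (fun i => n + i) ?_ ?_ ((Set.finite_Icc 0 (n - 1 + y)).subset
    (fun _ hn => ⟨Nat.zero_le _, hn.2.1⟩))
  · intro i hi
    have hi' := hST.1 (Finset.mem_coe.1 hi)
    rw [mem_range] at hi'
    refine ⟨?_, ?_, ?_⟩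
    · show n - 1 < n + i
      omega
    · show n + i ≤ n - 1 + y
      omega
    · have h5 := (hn3 i hi').2 (Finset.mem_coe.1 hi)
      intro p hp hpw
      exact h5 p hp (hpw.trans (hmono (by omega)))
  · intro a _ b _ hab
    have : n + a = n + b := hab
    omega

open Classical in
lemma rho_eq (w : ℕ → ℕ) (hw : Level w) (y : ℕ) (hy : 1 ≤ y) : rhoW w y = hmax y := by
  obtain ⟨F, hF⟩ : ∃ F : ℕ → ℕ, F = fun x : ℕ => if ∃ p, x < p ∧ p ≤ x + y ∧ p.Prime then number w x y else 0 := ⟨_, rfl⟩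
  have hup : ∀ᶠ x in Filter.atTop, F x ≤ hmax y := by
    filter_upwards [hw.2.1.eventually_ge_atTop y] with x hx
    rw [hF]
    simp only
    split_ifs with h
    · exact number_le w x y hx
    · exact Nat.zero_le _
  have hlow : ∃ᶠ x in Filter.atTop, hmax y ≤ F x := by
    rw [Filter.frequently_atTop]
    intro N
    obtain ⟨x, hx, hp, hn⟩ := frequently_full w hw y hy N
    refine ⟨x, hx, ?_⟩
    rw [hF]
    simp only
    rw [if_pos hp]
    exact hn
  have hbdd : Filter.IsBoundedUnder (· ≤ ·) Filter.atTop F := ⟨hmax y, Filter.eventually_map.2 hup⟩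
  unfold rhoW
  rw [← hF]
  apply le_antisymm
  · exact Filter.limsup_le_of_le (by isBoundedDefault) hup
  · exact Filter.le_limsup_of_frequently_le hlow hbdd

/-- **Windows with more almost primes than `π(y)`, with a prime.** -/
theorem result :
    -- the analogue of the question for almost primes, in windows with a prime
    (∀ w : ℕ → ℕ, Level w → ∀ y : ℕ, 1 ≤ y → rhoW w y = hmax y) ∧
    (∀ w : ℕ → ℕ, Level w →
      Filter.Tendsto (fun y : ℕ => (Nat.primeCounting y : ℝ) - rhoW w y) Filter.atTop Filter.atBot) ∧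
    (∀ α : ℝ, α < 1 / 2 → ∃ y₀ : ℕ, ∀ y : ℕ, y₀ ≤ y → ∀ w : ℕ → ℕ, Level w →
      (Nat.primeCounting y : ℝ) + α * (y * Real.log (Real.log (Real.log y)) / (Real.log y) ^ 2) ≤ rhoW w y) ∧
    -- the optimal windows
    ∀ k : ℕ, 1 ≤ k →
    (∀ w n : ℕ, k ≤ w → 1 ≤ n → count w n k ≤ hmax k) ∧
    (∀ w n s : ℕ, 0 < n → n ≤ w ^ s → Rough w n → n.primeFactorsList.length ≤ s) ∧
    0 < total k ∧
    -- with a prime at a prescribed place
    (∀ ε δ : ℝ, 0 < ε → 0 < δ → δ ≤ 1 → ∃ r w₀ : ℕ, ∀ w : ℕ, w₀ ≤ w → ∀ X : ℕ, w ^ r ≤ X →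
      ∀ S ∈ types k, ∀ b ∈ S, ∀ u Y : ℕ, δ * X ≤ u → δ * X ≤ Y → u + Y ≤ X →
        |(primeCount w k S b u Y : ℝ) * Real.log X -
            Y * (density w k * (weight k S / total k)) / mertens w| ≤
          ε * (Y * (density w k * (weight k S / total k)) / mertens w)) ∧
    -- the law of the types of successive optimal windows
    (∀ l : ℕ, ∀ ε : ℝ, 0 < ε → ∃ K w₀ : ℕ, ∀ w : ℕ, w₀ ≤ w → ∀ Z Y : ℕ, w ^ K ≤ Y →
      ∀ (S : ℕ → Finset ℕ) (s T : ℕ → ℕ), (∀ j ≤ l, S j ∈ types k) → (∀ j < l, s j ≤ T j) →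
        |(windowCount w k l S s T Z Y : ℝ) - density w k * Y * (∏ j ∈ range (l + 1), weight k (S j) / total k) *
            ∏ j ∈ range l, (Real.exp (-(density w k * s j)) - Real.exp (-(density w k * T j)))| ≤
          ε * (density w k * Y)) := by
  have hHR : ∀ α : ℝ, α < 1 / 2 → ∃ y₀ : ℕ, ∀ y : ℕ, y₀ ≤ y → ∀ w : ℕ → ℕ, Level w →
      (Nat.primeCounting y : ℝ) + α * (y * Real.log (Real.log (Real.log y)) / (Real.log y) ^ 2) ≤ rhoW w y := by
    intro α hα
    obtain ⟨x0, hx0⟩ := Pool.Agent.H381R2.HR.final hα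
    refine ⟨max 1 ⌈x0⌉₊, ?_⟩
    intro y hy w hw
    have h1 : 1 ≤ y := (le_max_left _ _).trans hy
    have h2 : x0 ≤ y := (Nat.le_ceil x0).trans (by exact_mod_cast (le_max_right _ _).trans hy)
    obtain ⟨S, _, hS, hadm, hcard⟩ := hx0 y h2
    rw [Nat.floor_natCast] at hcard
    rw [rho_eq w hw y h1]
    have h3 : (S.card : ℝ) ≤ hmax y := by exact_mod_cast card_le_hmax y S hS hadm
    exact hcard.trans h3
  refine ⟨fun w hw y hy => rho_eq w hw y hy, ?_, hHR, ?_⟩
  · intro w hw
    obtain ⟨y₀, hy₀⟩ := hHR (1 / 4) (by norm_num)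
    rw [Filter.tendsto_atBot]
    intro B
    have hgrow : Filter.Tendsto (fun y : ℕ => (y : ℝ) * Real.log (Real.log (Real.log y)) / (Real.log y) ^ 2)
        Filter.atTop Filter.atTop := by
      have hl : Filter.Tendsto (fun y : ℕ => Real.log (y : ℝ)) Filter.atTop Filter.atTop :=
        Real.tendsto_log_atTop.comp tendsto_natCast_atTop_atTop
      have hlll : Filter.Tendsto (fun y : ℕ => Real.log (Real.log (Real.log (y : ℝ)))) Filter.atTop Filter.atTop :=
        Real.tendsto_log_atTop.comp (Real.tendsto_log_atTop.comp hl)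
      have hdiv : Filter.Tendsto (fun y : ℕ => (y : ℝ) / (Real.log y) ^ 2) Filter.atTop Filter.atTop := by
        have h1 := (Real.tendsto_exp_div_pow_atTop 2).comp hl
        refine h1.congr' ?_
        filter_upwards [Filter.eventually_gt_atTop 0] with y hy
        simp only [Function.comp_def]
        rw [Real.exp_log (by exact_mod_cast hy)]
      refine (hlll.atTop_mul_atTop₀ hdiv).congr ?_
      intro y
      ring
    filter_upwards [Filter.eventually_ge_atTop y₀, hgrow.eventually_ge_atTop (-4 * B)] with y h1 h2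
    have h3 := hy₀ y h1 w hw
    linarith
  · intro k hk
    obtain ⟨h1, _, h3, h4, h5, h6⟩ := windows k hk
    exact ⟨h1, h3, h4, h5, h6⟩

end Pool.Agent.Results.MP_5046ca_nt.WindowsBeatPi
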